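import Pool.Agent.T6.H42P.ZBound
import Pool.Agent.T6.H42.Defs

/-!
# The choice of parameters
-/

set_option autoImplicit false

noncomputable section

namespace Pool.Agent.T6.H42P

open Pool.Agent.T6.H42

theorem floor_facts {α : ℝ} (L m : ℕ) (hm : (m : ℝ) + L ≤ α * m) :
    m ≤ ⌊α * m⌋₊ - L ∧ (2 : ℝ) ^ (⌊α * m⌋₊ - L) * 2 ^ L ≤ ((2 : ℝ) ^ α) ^ m ∧
      ((2 : ℝ) ^ α) ^ m ≤ (2 : ℝ) ^ (⌊α * m⌋₊ - L) * 2 ^ (L + 1) := by
  have h0 : 0 ≤ α * m := le_trans (by positivity) hm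
  have h1 : m + L ≤ ⌊α * m⌋₊ := by
    apply Nat.le_floor
    push_cast
    exact hm
  have h2 : ((2 : ℝ) ^ α) ^ m = (2 : ℝ) ^ (α * m) := by
    rw [← Real.rpow_natCast, ← Real.rpow_mul (by norm_num)]
  have h3 : ⌊α * m⌋₊ - L + L = ⌊α * m⌋₊ := by omega
  refine ⟨by omega, ?_, ?_⟩
  · rw [← pow_add, h3, h2, ← Real.rpow_natCast]
    exact Real.rpow_le_rpow_of_exponent_le (by norm_num) (Nat.floor_le h0)
  · rw [← pow_add, ← add_assoc, h3, h2, ← Real.rpow_natCast]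
    apply Real.rpow_le_rpow_of_exponent_le (by norm_num)
    push_cast
    exact (Nat.lt_floor_add_one _).le

theorem p1_aux {g c KKv CBv : ℝ} (hg : 1 ≤ g) (hc : 0 ≤ c) (hK : 0 ≤ KKv) {L m n : ℕ}
    (h : (2 * g) ^ m ≤ (2 : ℝ) ^ n * 2 ^ (L + 1)) :
    1 / 2 * CBv * 2 ^ m + 27 * (c * g ^ m) * (16 / 3 * KKv * 8 ^ m / 4 ^ n) ≤
      (CBv / 2 + 27 * (16 / 3) * KKv * c * 4 ^ (L + 1)) * 2 ^ m := by
  have h4n : (0 : ℝ) < 4 ^ n := by positivity
  have h1 : ((2 * g) ^ m) ^ 2 ≤ ((2 : ℝ) ^ n * 2 ^ (L + 1)) ^ 2 :=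
    pow_le_pow_left₀ (by positivity) h 2
  have h2 : ((2 : ℝ) ^ n * 2 ^ (L + 1)) ^ 2 = 4 ^ n * 4 ^ (L + 1) := by
    rw [mul_pow, ← pow_mul, ← pow_mul, mul_comm n 2, mul_comm (L + 1) 2, pow_mul, pow_mul]
    norm_num
  have h3 : ((2 * g) ^ m) ^ 2 = 4 ^ m * g ^ m * g ^ m := by
    rw [mul_pow, mul_pow, ← pow_mul, mul_comm m 2, pow_mul]
    norm_num
    ring
  have hgm : 1 ≤ g ^ m := one_le_pow₀ hg
  have h5 : g ^ m * 8 ^ m ≤ 4 ^ (L + 1) * 2 ^ m * 4 ^ n := by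
    have e8 : (8 : ℝ) ^ m = 2 ^ m * 4 ^ m := by
      rw [← mul_pow]
      norm_num
    have e1 : 4 ^ m * g ^ m * g ^ m ≤ (4 : ℝ) ^ n * 4 ^ (L + 1) := by
      rw [← h3, ← h2]
      exact h1
    have e2 : 4 ^ m * g ^ m ≤ 4 ^ m * g ^ m * g ^ m := le_mul_of_one_le_right (by positivity) hgm
    calc g ^ m * 8 ^ m = 2 ^ m * (4 ^ m * g ^ m) := by rw [e8]; ring
      _ ≤ 2 ^ m * (4 ^ n * 4 ^ (L + 1)) := by
          apply mul_le_mul_of_nonneg_left _ (by positivity)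
          linarith
      _ = _ := by ring
  have h6 : g ^ m * (8 ^ m / 4 ^ n) ≤ 4 ^ (L + 1) * 2 ^ m := by
    rw [← mul_div_assoc, div_le_iff₀ h4n]
    exact h5
  have h7 : 27 * (c * g ^ m) * (16 / 3 * KKv * 8 ^ m / 4 ^ n)
      = 27 * (16 / 3) * KKv * c * (g ^ m * (8 ^ m / 4 ^ n)) := by ring
  rw [h7]
  have h8 : 27 * (16 / 3) * KKv * c * (g ^ m * (8 ^ m / 4 ^ n))
      ≤ 27 * (16 / 3) * KKv * c * (4 ^ (L + 1) * 2 ^ m) :=
    mul_le_mul_of_nonneg_left h6 (by positivity)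
  linarith

theorem p2_aux {g c KKv ε : ℝ} (hg : 1 ≤ g) {L m n : ℕ}
    (h : (2 : ℝ) ^ n * 2 ^ L ≤ (2 * g) ^ m) (hL : 2 / 2 ^ L ≤ 3 * ε / 8)
    (hc : 324 * KKv * c ≤ 3 * ε / 8) :
    2 / 3 * (2 ^ (n + 1) + 324 * KKv * (c * g ^ m) * 2 ^ m) ≤ ε / 2 * (2 * g) ^ m := by
  have h2L : (0 : ℝ) < 2 ^ L := by positivity
  have hA : 0 < (2 * g) ^ m := by positivity
  have h1 : (2 : ℝ) ^ (n + 1) ≤ 3 * ε / 8 * (2 * g) ^ m := by
    have e1 : (2 : ℝ) ^ (n + 1) = (2 / 2 ^ L) * (2 ^ n * 2 ^ L) := by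
      rw [pow_succ]
      field_simp
    rw [e1]
    calc (2 / 2 ^ L) * ((2 : ℝ) ^ n * 2 ^ L) ≤ (2 / 2 ^ L) * (2 * g) ^ m :=
          mul_le_mul_of_nonneg_left h (by positivity)
      _ ≤ _ := mul_le_mul_of_nonneg_right hL hA.le
  have h2 : 324 * KKv * (c * g ^ m) * 2 ^ m = 324 * KKv * c * (2 * g) ^ m := by
    rw [mul_pow]
    ring
  rw [h2]
  have h3 : 324 * KKv * c * (2 * g) ^ m ≤ 3 * ε / 8 * (2 * g) ^ m :=
    mul_le_mul_of_nonneg_right hc hA.le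
  linarith

theorem p3_aux {g c b CCv ε : ℝ} (hg : 1 ≤ g) (hc : 0 ≤ c) (hCC : 0 ≤ CCv) (hb : 2 ≤ b)
    {m n : ℕ} (hmn : m ≤ n) (hε : 27 * c * CCv ≤ ε / 2) :
    27 * (c * g ^ m) * (CCv * (2 / b) ^ n) * b ^ m ≤ ε / 2 * (2 * g) ^ m := by
  have hb0 : 0 < b := by linarith
  have h1 : (2 / b) ^ n ≤ (2 / b) ^ m :=
    pow_le_pow_of_le_one (by positivity) ((div_le_one hb0).mpr hb) hmn
  have h2 : (2 / b) ^ n * b ^ m ≤ 2 ^ m := by
    calc (2 / b) ^ n * b ^ m ≤ (2 / b) ^ m * b ^ m := mul_le_mul_of_nonneg_right h1 (by positivity)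
      _ = 2 ^ m := by
          rw [← mul_pow]
          congr 1
          field_simp
  have hA : 0 < (2 * g) ^ m := by positivity
  calc 27 * (c * g ^ m) * (CCv * (2 / b) ^ n) * b ^ m
      = 27 * c * CCv * g ^ m * ((2 / b) ^ n * b ^ m) := by ring
    _ ≤ 27 * c * CCv * g ^ m * 2 ^ m := mul_le_mul_of_nonneg_left h2 (by positivity)
    _ = 27 * c * CCv * (2 * g) ^ m := by rw [mul_pow]; ring
    _ ≤ _ := mul_le_mul_of_nonneg_right hε hA.le

/-- The least exponent. -/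
theorem least_exp {h X : ℝ} (hh : 1 < h) : ∃ j : ℕ, X ≤ h ^ j ∧ (j = 0 ∨ h ^ (j - 1) < X) := by
  have hex : ∃ n : ℕ, X ≤ h ^ n := by
    obtain ⟨n, hn⟩ := pow_unbounded_of_one_lt X hh
    exact ⟨n, hn.le⟩
  classical
  refine ⟨Nat.find hex, Nat.find_spec hex, ?_⟩
  rcases Nat.eq_zero_or_pos (Nat.find hex) with h0 | h0
  · exact Or.inl h0
  · exact Or.inr (not_le.mp (Nat.find_min hex (by omega)))

theorem CC_pos (k : ℕ) {b : ℝ} (h2 : 2 < b) (h8 : b < 8) : 0 < CC k b := by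
  unfold CC
  have h1 := K1_pos k
  have h3 : 0 < (1 - b / 8)⁻¹ := inv_pos.mpr (by linarith)
  have h4 : 0 < (1 - 2 / b)⁻¹ := by
    apply inv_pos.mpr
    have : 2 / b < 1 := (div_lt_one (by linarith)).mpr h2
    linarith
  positivity

theorem CD_pos (k : ℕ) {d : ℝ} (hd : 1 < d) : 0 < CD k d := by
  unfold CD
  have h1 := K1_pos k
  have h3 : 0 < (1 - d⁻¹)⁻¹ := inv_pos.mpr (by linarith [inv_lt_one_of_one_lt₀ hd])
  positivity

theorem CB_pos (k : ℕ) : 0 < CB k := by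
  unfold CB
  have := KK_pos k
  positivity

/-- The bound on the weighted sums. -/
theorem Z_final {α c ε' d : ℝ} (hα : 1 < α) (hc : 0 < c) (hε' : 0 < ε') (hd1 : 1 < d)
    (hdg : d ≤ (2 : ℝ) ^ (α - 1)) (hdh : d ≤ (2 : ℝ) ^ ((α + 3) * (α - 1) / (α + 2)))
    (N m0 : ℕ) (h5 : 5 ≤ ε' * ((2 : ℝ) ^ (α - 1)) ^ m0)
    (hX : 10 * (54 * N / c) ^ (1 / (α + 2)) / ε'
      ≤ ((2 : ℝ) ^ ((α + 3) * (α - 1) / (α + 2))) ^ m0) (m : ℕ) (hm : m0 ≤ m) :
    ENNReal.ofReal (d ^ (m - m0)) * Zs N (fun n => c * ((2 : ℝ) ^ (α - 1)) ^ n) m ≤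
      ENNReal.ofReal (ε' * ((2 : ℝ) ^ α) ^ m) := by
  obtain ⟨g, hg⟩ : ∃ g : ℝ, g = (2 : ℝ) ^ (α - 1) := ⟨_, rfl⟩
  obtain ⟨h, hh⟩ : ∃ h : ℝ, h = (2 : ℝ) ^ ((α + 3) * (α - 1) / (α + 2)) := ⟨_, rfl⟩
  have hZ := Zs_bound hα hc N m
  rw [← hg] at hZ hdg h5 ⊢
  rw [← hh] at hdh hX
  have hg0 : 0 < g := by rw [hg]; positivity
  have hh0 : 0 < h := by rw [hh]; positivity
  have ha : (2 : ℝ) ^ α = 2 * g := by
    have e : α = 1 + (α - 1) := by ring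
    nth_rewrite 1 [e]
    rw [Real.rpow_add (by norm_num), Real.rpow_one, hg]
  have ha2 : (2 : ℝ) ^ α = h * (8 : ℝ) ^ (1 / (α + 2)) := by
    have : (8 : ℝ) = (2 : ℝ) ^ (3 : ℝ) := by norm_num
    rw [hh, this, ← Real.rpow_mul (by norm_num), ← Real.rpow_add (by norm_num)]
    congr 1
    field_simp
    ring
  calc ENNReal.ofReal (d ^ (m - m0)) * Zs N (fun n => c * g ^ n) m
      ≤ ENNReal.ofReal (d ^ (m - m0)) * ENNReal.ofReal (5 * max (2 ^ m)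
        (2 * (54 * N * 8 ^ m / c) ^ (1 / (α + 2)))) := mul_le_mul' le_rfl hZ
    _ = ENNReal.ofReal (d ^ (m - m0) * (5 * max (2 ^ m)
        (2 * (54 * N * 8 ^ m / c) ^ (1 / (α + 2))))) :=
        (ENNReal.ofReal_mul (by positivity)).symm
    _ ≤ _ := by
        apply ENNReal.ofReal_le_ofReal
        have hd0 : 0 ≤ d := by linarith
        rw [mul_max_of_nonneg _ _ (by norm_num : (0 : ℝ) ≤ 5),
          mul_max_of_nonneg _ _ (by positivity)]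
        apply max_le
        · -- the first part
          have e1 : d ^ (m - m0) ≤ g ^ (m - m0) := pow_le_pow_left₀ hd0 hdg _
          have e2 : g ^ m = g ^ (m - m0) * g ^ m0 := by
            rw [← pow_add]
            congr 1
            omega
          have e3 : 0 < g ^ (m - m0) := by positivity
          rw [ha, mul_pow, e2]
          calc d ^ (m - m0) * (5 * 2 ^ m) ≤ g ^ (m - m0) * (5 * 2 ^ m) :=
                mul_le_mul_of_nonneg_right e1 (by positivity)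
            _ = (g ^ (m - m0) * 2 ^ m) * 5 := by ring
            _ ≤ (g ^ (m - m0) * 2 ^ m) * (ε' * g ^ m0) :=
                mul_le_mul_of_nonneg_left h5 (by positivity)
            _ = _ := by ring
        · -- the second part
          have e1 : d ^ (m - m0) ≤ h ^ (m - m0) := pow_le_pow_left₀ hd0 hdh _
          have e2 : h ^ m = h ^ (m - m0) * h ^ m0 := by
            rw [← pow_add]
            congr 1
            omega
          have e3 : (54 * (N : ℝ) * 8 ^ m / c) ^ (1 / (α + 2))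
              = (54 * N / c) ^ (1 / (α + 2)) * ((8 : ℝ) ^ (1 / (α + 2))) ^ m := by
            have : 54 * (N : ℝ) * 8 ^ m / c = (54 * N / c) * 8 ^ m := by ring
            rw [this, Real.mul_rpow (by positivity) (by positivity)]
            congr 1
            rw [← Real.rpow_natCast, ← Real.rpow_mul (by norm_num), ← Real.rpow_natCast,
              ← Real.rpow_mul (by norm_num), mul_comm]
          rw [e3, ha2, mul_pow, e2]
          rw [div_le_iff₀ hε'] at hX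
          have e4 : 0 < h ^ (m - m0) := by positivity
          have e5 : 0 < ((8 : ℝ) ^ (1 / (α + 2))) ^ m := by positivity
          calc d ^ (m - m0) * (5 * (2 * ((54 * N / c) ^ (1 / (α + 2)) *
                ((8 : ℝ) ^ (1 / (α + 2))) ^ m)))
              ≤ h ^ (m - m0) * (5 * (2 * ((54 * N / c) ^ (1 / (α + 2)) *
                ((8 : ℝ) ^ (1 / (α + 2))) ^ m))) := mul_le_mul_of_nonneg_right e1 (by positivity)
            _ = (h ^ (m - m0) * ((8 : ℝ) ^ (1 / (α + 2))) ^ m) *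
                (10 * (54 * N / c) ^ (1 / (α + 2))) := by ring
            _ ≤ (h ^ (m - m0) * ((8 : ℝ) ^ (1 / (α + 2))) ^ m) * (h ^ m0 * ε') :=
                mul_le_mul_of_nonneg_left hX (by positivity)
            _ = _ := by ring

/-- The size of the lowest level. -/
theorem size_aux {α K N X M : ℝ} {j : ℕ} (hα : 1 < α) (hK : 0 < K) (hN : 1 ≤ N)
    (hX : X = K * N ^ (1 / (α + 2)))
    (hj : j = 0 ∨ ((2 : ℝ) ^ ((α + 3) * (α - 1) / (α + 2))) ^ (j - 1) < X) (hM : 1 ≤ M) :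
    M * 2 ^ j ≤ (M * (1 + 2 * K ^ ((α + 2) / ((α + 3) * (α - 1))))) *
      N ^ (1 / ((α + 3) * (α - 1))) := by
  have hN0 : 0 < N := by linarith
  have hs : 0 < (α + 3) * (α - 1) := mul_pos (by linarith) (by linarith)
  have hNβ : 1 ≤ N ^ (1 / ((α + 3) * (α - 1))) := Real.one_le_rpow hN (by positivity)
  have hKp : 0 < K ^ ((α + 2) / ((α + 3) * (α - 1))) := by positivity
  have h1 : (2 : ℝ) ^ j ≤ (1 + 2 * K ^ ((α + 2) / ((α + 3) * (α - 1)))) *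
      N ^ (1 / ((α + 3) * (α - 1))) := by
    rcases Nat.eq_zero_or_pos j with h0 | h0
    · rw [h0, pow_zero]
      nlinarith
    · rcases hj with h | h
      · omega
      · have e1 : (2 : ℝ) ^ (j - 1)
            = (((2 : ℝ) ^ ((α + 3) * (α - 1) / (α + 2))) ^ (j - 1)) ^
              ((α + 2) / ((α + 3) * (α - 1))) := by
          rw [← Real.rpow_natCast, ← Real.rpow_natCast,
            ← Real.rpow_mul (by norm_num : (0 : ℝ) ≤ 2),
            ← Real.rpow_mul (by norm_num : (0 : ℝ) ≤ 2)]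
          congr 1
          have : α - 1 ≠ 0 := by linarith
          have : α + 3 ≠ 0 := by linarith
          have : α + 2 ≠ 0 := by linarith
          field_simp
        have e2 : (2 : ℝ) ^ (j - 1) ≤ X ^ ((α + 2) / ((α + 3) * (α - 1))) := by
          rw [e1]
          exact Real.rpow_le_rpow (by positivity) h.le (by positivity)
        have e3 : X ^ ((α + 2) / ((α + 3) * (α - 1)))
            = K ^ ((α + 2) / ((α + 3) * (α - 1))) * N ^ (1 / ((α + 3) * (α - 1))) := by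
          rw [hX, Real.mul_rpow hK.le (by positivity), ← Real.rpow_mul hN0.le]
          congr 2
          have : α - 1 ≠ 0 := by linarith
          have : α + 3 ≠ 0 := by linarith
          have : α + 2 ≠ 0 := by linarith
          field_simp
        have e4 : (2 : ℝ) ^ j = 2 * 2 ^ (j - 1) := by
          rw [← pow_succ']
          congr 1
          omega
        rw [e4]
        rw [e3] at e2
        nlinarith
  calc M * 2 ^ j ≤ M * ((1 + 2 * K ^ ((α + 2) / ((α + 3) * (α - 1)))) *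
      N ^ (1 / ((α + 3) * (α - 1)))) := mul_le_mul_of_nonneg_left h1 (by linarith)
    _ = _ := by ring

theorem final_aux {α CBC P C1 N : ℝ} {m0 : ℕ} (hα : 1 < α) (hC : 0 ≤ CBC) (hP : 0 ≤ P)
    (hC1 : 0 ≤ C1) (hN : 1 ≤ N)
    (ht : (2 : ℝ) ^ m0 ≤ C1 * N ^ (1 / ((α + 3) * (α - 1)))) :
    N * (CBC * (2 ^ m0 + P * ((2 : ℝ) ^ α) ^ m0)) ≤ (CBC * (1 + P) * C1 ^ α) * N ^ gam α := by
  have hN0 : 0 < N := by linarith
  have h1 : ((2 : ℝ) ^ α) ^ m0 = ((2 : ℝ) ^ m0) ^ α := by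
    rw [← Real.rpow_natCast, ← Real.rpow_mul (by norm_num), ← Real.rpow_natCast,
      ← Real.rpow_mul (by norm_num), mul_comm]
  have h2 : (1 : ℝ) ≤ 2 ^ m0 := one_le_pow₀ (by norm_num)
  have h3 : (2 : ℝ) ^ m0 ≤ ((2 : ℝ) ^ m0) ^ α := by
    calc (2 : ℝ) ^ m0 = ((2 : ℝ) ^ m0) ^ (1 : ℝ) := (Real.rpow_one _).symm
      _ ≤ _ := Real.rpow_le_rpow_of_exponent_le h2 hα.le
  have h4 : ((2 : ℝ) ^ m0) ^ α ≤ C1 ^ α * N ^ (α / ((α + 3) * (α - 1))) := by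
    calc ((2 : ℝ) ^ m0) ^ α ≤ (C1 * N ^ (1 / ((α + 3) * (α - 1)))) ^ α :=
          Real.rpow_le_rpow (by positivity) ht (by linarith)
      _ = _ := by
          rw [Real.mul_rpow hC1 (by positivity), ← Real.rpow_mul hN0.le]
          congr 2
          ring
  have h5 : N ^ gam α = N * N ^ (α / ((α + 3) * (α - 1))) := by
    have e : gam α = 1 + α / ((α + 3) * (α - 1)) := by
      unfold gam
      have : α - 1 ≠ 0 := by linarith
      have : α + 3 ≠ 0 := by linarith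
      field_simp
      ring
    rw [e, Real.rpow_add hN0, Real.rpow_one]
  rw [h1, h5]
  have h6 : (2 : ℝ) ^ m0 + P * ((2 : ℝ) ^ m0) ^ α
      ≤ (1 + P) * (C1 ^ α * N ^ (α / ((α + 3) * (α - 1)))) := by
    calc (2 : ℝ) ^ m0 + P * ((2 : ℝ) ^ m0) ^ α ≤ (1 + P) * ((2 : ℝ) ^ m0) ^ α := by linarith
      _ ≤ _ := mul_le_mul_of_nonneg_left h4 (by linarith)
  calc N * (CBC * (2 ^ m0 + P * ((2 : ℝ) ^ m0) ^ α))
      = N * CBC * (2 ^ m0 + P * ((2 : ℝ) ^ m0) ^ α) := by ring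
    _ ≤ N * CBC * ((1 + P) * (C1 ^ α * N ^ (α / ((α + 3) * (α - 1))))) :=
        mul_le_mul_of_nonneg_left h6 (by positivity)
    _ = _ := by ring

/-- **The choice of parameters.** -/
theorem params_exist (α : ℝ) (hα : 1 < α) (k : ℕ) (hk : 0 < k) (δ : ℝ) (hδ : 0 < δ) :
    ∃ C : ℝ, 0 < C ∧ ∃ N0 : ℕ, ∀ N : ℕ, N0 ≤ N →
      ∃ (θ : ℕ → ℝ) (m0 : ℕ) (nn : ℕ → ℕ) (b ε CBC d ε' : ℝ),
        Params k θ m0 nn ((2 : ℝ) ^ α) b ε CBC ∧ (∃ m, m0 ≤ m ∧ (N : ℝ) ≤ θ m) ∧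
        (∀ m, m0 ≤ m → 2 ≤ θ m) ∧ 1 < d ∧ 0 ≤ ε' ∧
        (∀ m, m0 ≤ m → ENNReal.ofReal (d ^ (m - m0)) * Zs N θ m ≤
          ENNReal.ofReal (ε' * ((2 : ℝ) ^ α) ^ m)) ∧
        CBC * (CD k d * ε') + ε ≤ δ ∧
        N * (CBC * (2 ^ m0 + 2 * KK k * (ε' * ((2 : ℝ) ^ α) ^ m0))) ≤ C * (N : ℝ) ^ gam α := by
  have hKK := KK_pos k
  -- the constants
  obtain ⟨g, hg⟩ : ∃ g : ℝ, g = (2 : ℝ) ^ (α - 1) := ⟨_, rfl⟩
  obtain ⟨h, hh⟩ : ∃ h : ℝ, h = (2 : ℝ) ^ ((α + 3) * (α - 1) / (α + 2)) := ⟨_, rfl⟩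
  have hg1 : 1 < g := by
    rw [hg]
    exact Real.one_lt_rpow (by norm_num) (by linarith)
  have hh1 : 1 < h := by
    rw [hh]
    apply Real.one_lt_rpow (by norm_num)
    have : 0 < (α + 3) * (α - 1) := mul_pos (by linarith) (by linarith)
    positivity
  have ha : (2 : ℝ) ^ α = 2 * g := by
    have e : α = 1 + (α - 1) := by ring
    nth_rewrite 1 [e]
    rw [Real.rpow_add (by norm_num), Real.rpow_one, hg]
  have ha2 : 2 < (2 : ℝ) ^ α := by rw [ha]; linarith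
  obtain ⟨b, hb⟩ : ∃ b : ℝ, b = min ((2 : ℝ) ^ α) 4 := ⟨_, rfl⟩
  have hb2 : 2 < b := by rw [hb]; exact lt_min ha2 (by norm_num)
  have hb8 : b < 8 := by rw [hb]; exact lt_of_le_of_lt (min_le_right _ _) (by norm_num)
  have hba : b ≤ (2 : ℝ) ^ α := by rw [hb]; exact min_le_left _ _
  have hCC := CC_pos k hb2 hb8
  obtain ⟨ε, hε⟩ : ∃ ε : ℝ, ε = δ / 2 := ⟨_, rfl⟩
  have hε0 : 0 < ε := by rw [hε]; linarith
  obtain ⟨L, hL⟩ : ∃ L : ℕ, 2 / (2 : ℝ) ^ L ≤ 3 * ε / 8 := by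
    obtain ⟨L, hL⟩ := pow_unbounded_of_one_lt (2 / (3 * ε / 8)) (by norm_num : (1 : ℝ) < 2)
    refine ⟨L, ?_⟩
    rw [div_lt_iff₀ (by positivity)] at hL
    rw [div_le_iff₀ (by positivity)]
    linarith
  obtain ⟨c, hc⟩ : ∃ c : ℝ, c = ε / (1000 * (KK k + CC k b + 1)) := ⟨_, rfl⟩
  have hc0 : 0 < c := by rw [hc]; positivity
  have hcK : 324 * KK k * c ≤ 3 * ε / 8 := by
    rw [hc, mul_div_assoc', div_le_iff₀ (by positivity)]
    nlinarith [mul_pos hε0 hKK, mul_pos hε0 hCC]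
  have hcC : 27 * c * CC k b ≤ ε / 2 := by
    have : 27 * c * CC k b = 27 * CC k b * c := by ring
    rw [this, hc, mul_div_assoc', div_le_iff₀ (by positivity)]
    nlinarith [mul_pos hε0 hKK, mul_pos hε0 hCC]
  obtain ⟨CBC, hCBC⟩ : ∃ CBC : ℝ, CBC = CB k / 2 + 27 * (16 / 3) * KK k * c * 4 ^ (L + 1) :=
    ⟨_, rfl⟩
  have hCBC0 : 0 < CBC := by
    have := CB_pos k
    rw [hCBC]
    positivity
  obtain ⟨d, hd⟩ : ∃ d : ℝ, d = min g h := ⟨_, rfl⟩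
  have hd1 : 1 < d := by rw [hd]; exact lt_min hg1 hh1
  have hdg : d ≤ g := by rw [hd]; exact min_le_left _ _
  have hdh : d ≤ h := by rw [hd]; exact min_le_right _ _
  have hCD := CD_pos k hd1
  obtain ⟨ε', hε'⟩ : ∃ ε' : ℝ, ε' = δ / (2 * (CBC * CD k d)) := ⟨_, rfl⟩
  have hε'0 : 0 < ε' := by rw [hε']; positivity
  -- the base level
  obtain ⟨M1, hM1a, hM1b, hM1c⟩ : ∃ M1 : ℕ, 5 ≤ ε' * g ^ M1 ∧ 2 ≤ c * g ^ M1 ∧
      (L : ℝ) ≤ (α - 1) * M1 := by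
    obtain ⟨x1, hx1⟩ := pow_unbounded_of_one_lt (5 / ε') hg1
    obtain ⟨x2, hx2⟩ := pow_unbounded_of_one_lt (2 / c) hg1
    obtain ⟨x3, hx3⟩ := exists_nat_ge ((L : ℝ) / (α - 1))
    rw [div_lt_iff₀ hε'0] at hx1
    rw [div_lt_iff₀ hc0] at hx2
    rw [div_le_iff₀ (by linarith)] at hx3
    refine ⟨x1 + x2 + x3, ?_, ?_, ?_⟩
    · have : g ^ x1 ≤ g ^ (x1 + x2 + x3) := pow_le_pow_right₀ hg1.le (by omega)
      nlinarith
    · have : g ^ x2 ≤ g ^ (x1 + x2 + x3) := pow_le_pow_right₀ hg1.le (by omega)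
      nlinarith
    · have e1 : (x3 : ℝ) ≤ ((x1 + x2 + x3 : ℕ) : ℝ) := by
        exact_mod_cast (by omega : x3 ≤ x1 + x2 + x3)
      have e2 : (x3 : ℝ) * (α - 1) ≤ ((x1 + x2 + x3 : ℕ) : ℝ) * (α - 1) :=
        mul_le_mul_of_nonneg_right e1 (by linarith)
      linarith
  have hs0 : 0 < (α + 3) * (α - 1) := mul_pos (by linarith) (by linarith)
  obtain ⟨K, hK⟩ : ∃ K : ℝ, K = 10 * (54 / c) ^ (1 / (α + 2)) / ε' := ⟨_, rfl⟩
  have hK0 : 0 < K := by rw [hK]; positivity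
  obtain ⟨C1, hC1⟩ : ∃ C1 : ℝ, C1 = 2 ^ M1 * (1 + 2 * K ^ ((α + 2) / ((α + 3) * (α - 1)))) :=
    ⟨_, rfl⟩
  have hC10 : 0 < C1 := by rw [hC1]; positivity
  refine ⟨CBC * (1 + 2 * KK k * ε') * C1 ^ α, by positivity, 1, ?_⟩
  intro N hN
  have hN1 : (1 : ℝ) ≤ N := by exact_mod_cast hN
  have hN0 : (0 : ℝ) < N := by linarith
  obtain ⟨X, hX⟩ : ∃ X : ℝ, X = 10 * (54 * N / c) ^ (1 / (α + 2)) / ε' := ⟨_, rfl⟩
  have hXK : X = K * (N : ℝ) ^ (1 / (α + 2)) := by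
    rw [hX, hK]
    have : 54 * (N : ℝ) / c = (54 / c) * N := by ring
    rw [this, Real.mul_rpow (by positivity) hN0.le]
    ring
  obtain ⟨j, hj1, hj2⟩ := least_exp (X := X) hh1
  obtain ⟨m0, hm0⟩ : ∃ m0 : ℕ, m0 = M1 + j := ⟨_, rfl⟩
  have hgm : ∀ m, m0 ≤ m → g ^ M1 ≤ g ^ m := fun m hm =>
    pow_le_pow_right₀ hg1.le (by omega)
  have hfl : ∀ m, m0 ≤ m → (m : ℝ) + L ≤ α * m := by
    intro m hm
    have e1 : (M1 : ℝ) ≤ m := by exact_mod_cast (by omega : M1 ≤ m)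
    nlinarith
  refine ⟨fun m => c * g ^ m, m0, fun m => ⌊α * m⌋₊ - L, b, ε, CBC, d, ε', ?_, ?_, ?_, hd1,
    hε'0.le, ?_, ?_, ?_⟩
  · refine ⟨hk, ?_, ?_, hb2, hb8, hba, hε0.le, hCBC0.le, ?_, ?_, ?_, ?_, ?_⟩
    · intro m
      positivity
    · intro m n hmn
      exact mul_le_mul_of_nonneg_left (pow_le_pow_right₀ hg1.le hmn) hc0.le
    · intro m n hmn
      apply Nat.sub_le_sub_right
      apply Nat.floor_mono
      have : (m : ℝ) ≤ n := by exact_mod_cast hmn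
      nlinarith
    · intro m hm
      exact (floor_facts L m (hfl m hm)).1
    · intro m hm
      have e := (floor_facts L m (hfl m hm)).2.2
      rw [ha] at e
      rw [hCBC]
      exact p1_aux hg1.le hc0.le hKK.le e
    · intro m hm
      have e := (floor_facts L m (hfl m hm)).2.1
      rw [ha] at e ⊢
      exact p2_aux hg1.le e hL hcK
    · intro m hm
      have e := (floor_facts L m (hfl m hm)).1
      rw [ha]
      exact p3_aux hg1.le hc0.le hCC.le hb2.le e hcC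
  · obtain ⟨x, hx⟩ := pow_unbounded_of_one_lt ((N : ℝ) / c) hg1
    refine ⟨max m0 x, le_max_left _ _, ?_⟩
    rw [div_lt_iff₀ hc0] at hx
    have : g ^ x ≤ g ^ (max m0 x) := pow_le_pow_right₀ hg1.le (le_max_right _ _)
    nlinarith
  · intro m hm
    have := hgm m hm
    nlinarith
  · intro m hm
    have h5 : 5 ≤ ε' * ((2 : ℝ) ^ (α - 1)) ^ m0 := by
      rw [← hg]
      have := hgm m0 le_rfl
      nlinarith
    have hX' : 10 * (54 * (N : ℝ) / c) ^ (1 / (α + 2)) / ε'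
      ≤ ((2 : ℝ) ^ ((α + 3) * (α - 1) / (α + 2))) ^ m0 := by
      rw [← hX, ← hh]
      refine hj1.trans (pow_le_pow_right₀ hh1.le (by omega))
    have := Z_final hα hc0 hε'0 hd1 (hg ▸ hdg) (hh ▸ hdh) N m0 h5 hX' m hm
    rw [← hg] at this
    exact this
  · rw [hε', hε]
    have : CBC * (CD k d * (δ / (2 * (CBC * CD k d)))) = δ / 2 := by
      field_simp
    rw [this]
    linarith
  · have ht : (2 : ℝ) ^ m0 ≤ C1 * (N : ℝ) ^ (1 / ((α + 3) * (α - 1))) := by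
      rw [hm0, pow_add, hC1]
      rw [hh] at hj2
      exact size_aux hα hK0 hN1 hXK hj2 (one_le_pow₀ (by norm_num))
    have := final_aux (P := 2 * KK k * ε') hα hCBC0.le (by positivity) hC10.le hN1 ht
    calc N * (CBC * (2 ^ m0 + 2 * KK k * (ε' * ((2 : ℝ) ^ α) ^ m0)))
        = N * (CBC * (2 ^ m0 + 2 * KK k * ε' * ((2 : ℝ) ^ α) ^ m0)) := by ring
      _ ≤ _ := this

end Pool.Agent.T6.H42P
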