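import Pool.Agent.T6.H42.Low2

/-!
# Bound for the weighted sums
-/

set_option autoImplicit false

noncomputable section

namespace Pool.Agent.T6.H42P

open Pool.Agent.T6.H42
open scoped ENNReal

theorem geo_sum (P : ℕ) : ∑ n ∈ Finset.range P, (2 : ℝ) ^ (n + 1) = 2 * 2 ^ P - 2 := by
  induction P with
  | zero => simp
  | succ P ih =>
    rw [Finset.sum_range_succ, ih]
    ring

/-- Splitting of a series. -/
theorem tsum_split (f : ℕ → ℝ≥0∞) (P : ℕ) {A : ℝ} (hA : 0 ≤ A)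
    (h1 : ∀ n < P, f n ≤ ENNReal.ofReal (2 ^ (n + 1)))
    (h2 : ∀ j, f (j + P) ≤ ENNReal.ofReal (A * (1 / 4) ^ j)) :
    ∑' n, f n ≤ ENNReal.ofReal (2 * 2 ^ P + A * (4 / 3)) := by
  have h0 : ∑' n, f n = ∑ n ∈ Finset.range P, f n + ∑' j, f (j + P) :=
    (ENNReal.summable.sum_add_tsum_nat_add' (f := f) (k := P)).symm
  rw [h0]
  have e1 : ∑ n ∈ Finset.range P, f n ≤ ENNReal.ofReal (2 * 2 ^ P) := by
    calc ∑ n ∈ Finset.range P, f n ≤ ∑ n ∈ Finset.range P, ENNReal.ofReal (2 ^ (n + 1)) :=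
          Finset.sum_le_sum fun n hn => h1 n (Finset.mem_range.mp hn)
      _ = ENNReal.ofReal (∑ n ∈ Finset.range P, 2 ^ (n + 1)) := by
          rw [ENNReal.ofReal_sum_of_nonneg]
          intro i _
          positivity
      _ ≤ _ := by
          apply ENNReal.ofReal_le_ofReal
          rw [geo_sum]
          linarith
  have hs : Summable fun j : ℕ => A * (1 / 4 : ℝ) ^ j :=
    (summable_geometric_of_lt_one (by norm_num) (by norm_num)).mul_left A
  have e2 : ∑' j, f (j + P) ≤ ENNReal.ofReal (A * (4 / 3)) := by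
    calc ∑' j, f (j + P) ≤ ∑' j, ENNReal.ofReal (A * (1 / 4) ^ j) := ENNReal.tsum_le_tsum h2
      _ = ENNReal.ofReal (∑' j, A * (1 / 4) ^ j) :=
          (ENNReal.ofReal_tsum_of_nonneg (fun j => by positivity) hs).symm
      _ = _ := by
          rw [tsum_mul_left, tsum_geometric_of_lt_one (by norm_num) (by norm_num)]
          norm_num
  rw [ENNReal.ofReal_add (by positivity) (by positivity)]
  exact add_le_add e1 e2

/-- The bound for `Zs` for geometric thresholds. -/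
theorem Zs_bound {α c : ℝ} (hα : 1 < α) (hc : 0 < c) (N m : ℕ) :
    Zs N (fun n => c * ((2 : ℝ) ^ (α - 1)) ^ n) m ≤
      ENNReal.ofReal (5 * max (2 ^ m)
        (2 * (54 * N * 8 ^ m / c) ^ (1 / (α + 2)))) := by
  obtain ⟨g, hg⟩ : ∃ g : ℝ, g = (2 : ℝ) ^ (α - 1) := ⟨_, rfl⟩
  rw [← hg]
  have hg1 : 1 < g := by
    rw [hg]
    exact Real.one_lt_rpow (by norm_num) (by linarith)
  have hg0 : 0 < g := by linarith
  obtain ⟨q, hq⟩ : ∃ q : ℝ, q = 8 * g := ⟨_, rfl⟩
  have hq8 : 8 < q := by rw [hq]; linarith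
  have hq0 : 0 < q := by linarith
  have hqα : q = (2 : ℝ) ^ (α + 2) := by
    rw [hq, hg]
    have : (8 : ℝ) = (2 : ℝ) ^ (3 : ℝ) := by norm_num
    rw [this, ← Real.rpow_add (by norm_num)]
    congr 1
    ring
  obtain ⟨Y, hY⟩ : ∃ Y : ℝ, Y = 54 * N * 8 ^ m / c := ⟨_, rfl⟩
  have hY0 : 0 ≤ Y := by rw [hY]; positivity
  rw [← hY]
  have hex : ∃ n : ℕ, Y ≤ q ^ n := by
    obtain ⟨n, hn⟩ := pow_unbounded_of_one_lt Y (by linarith : 1 < q)
    exact ⟨n, hn.le⟩
  classical
  obtain ⟨n1, hn1, hmin⟩ : ∃ n1 : ℕ, Y ≤ q ^ n1 ∧ ∀ n < n1, q ^ n < Y :=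
    ⟨Nat.find hex, Nat.find_spec hex, fun n hn => not_le.mp (Nat.find_min hex hn)⟩
  -- size of `2 ^ n1`
  have h2n1 : (2 : ℝ) ^ n1 ≤ max (2 ^ m) (2 * Y ^ (1 / (α + 2))) := by
    rcases Nat.eq_zero_or_pos n1 with h | h
    · rw [h, pow_zero]
      exact le_max_of_le_left (one_le_pow₀ (by norm_num))
    · apply le_max_of_le_right
      have e1 : q ^ (n1 - 1) < Y := hmin (n1 - 1) (by omega)
      have e2 : (2 : ℝ) ^ (n1 - 1) = (q ^ (n1 - 1)) ^ (1 / (α + 2)) := by
        rw [hqα, ← Real.rpow_natCast, ← Real.rpow_natCast,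
          ← Real.rpow_mul (by norm_num : (0 : ℝ) ≤ 2),
          ← Real.rpow_mul (by norm_num : (0 : ℝ) ≤ 2)]
        congr 1
        field_simp
      have e3 : (q ^ (n1 - 1)) ^ (1 / (α + 2)) ≤ Y ^ (1 / (α + 2)) :=
        Real.rpow_le_rpow (by positivity) e1.le (by positivity)
      have e4 : (2 : ℝ) ^ n1 = 2 * 2 ^ (n1 - 1) := by
        rw [← pow_succ']
        congr 1
        omega
      rw [e4, e2]
      linarith
  obtain ⟨P, hP⟩ : ∃ P : ℕ, P = max m n1 := ⟨_, rfl⟩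
  have hPm : m ≤ P := by rw [hP]; exact le_max_left _ _
  have hPn : n1 ≤ P := by rw [hP]; exact le_max_right _ _
  have h2P : (2 : ℝ) ^ P ≤ max (2 ^ m) (2 * Y ^ (1 / (α + 2))) := by
    rw [hP]
    rcases le_total m n1 with h | h
    · rw [max_eq_right h]
      exact h2n1
    · rw [max_eq_left h]
      exact le_max_left _ _
  have hYP : Y ≤ q ^ P := hn1.trans (pow_le_pow_right₀ (by linarith) hPn)
  have hW : ∀ n, Wb N (fun n => c * g ^ n) n m = min 1 (Y / q ^ n) := by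
    intro n
    unfold Wb
    congr 1
    rw [hY, hq, mul_pow]
    field_simp
  have hfin : Zs N (fun n => c * g ^ n) m ≤ ENNReal.ofReal (2 * 2 ^ P + 2 * 2 ^ P * (4 / 3)) := by
    unfold Zs
    apply tsum_split _ P (by positivity)
    · intro n _
      split_ifs
      · apply ENNReal.ofReal_le_ofReal
        rw [hW]
        have : min 1 (Y / q ^ n) ≤ 1 := min_le_left _ _
        have h0 : (0 : ℝ) < 2 ^ (n + 1) := by positivity
        nlinarith
      · exact zero_le
    · intro j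
      rw [if_pos (by omega)]
      apply ENNReal.ofReal_le_ofReal
      rw [hW]
      have e1 : min 1 (Y / q ^ (j + P)) ≤ (1 / 8) ^ j := by
        refine (min_le_right _ _).trans ?_
        rw [div_le_iff₀ (by positivity), pow_add]
        have e2 : (1 : ℝ) ≤ (1 / 8) ^ j * q ^ j := by
          rw [← mul_pow]
          apply one_le_pow₀
          linarith
        have e3 : 0 < q ^ P := by positivity
        calc Y ≤ 1 * q ^ P := by linarith
          _ ≤ ((1 / 8) ^ j * q ^ j) * q ^ P := by gcongr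
          _ = _ := by ring
      calc (2 : ℝ) ^ (j + P + 1) * min 1 (Y / q ^ (j + P)) ≤ (2 : ℝ) ^ (j + P + 1) * (1 / 8) ^ j := by
            gcongr
        _ = 2 * 2 ^ P * (2 ^ j * (1 / 8) ^ j) := by ring
        _ = 2 * 2 ^ P * (1 / 4) ^ j := by
            rw [← mul_pow]
            norm_num
  refine hfin.trans (ENNReal.ofReal_le_ofReal ?_)
  have : (0 : ℝ) < 2 ^ P := by positivity
  linarith

end Pool.Agent.T6.H42P
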